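import Pool.Agent.Helper28.BA.GoalsC
import Pool.Agent.Helper28.BA.CQ

/-! # The case `p = 5` (packet N5 of project BA2) -/

open Complex MeasureTheory Set Filter Topology
open Pool.Agent.Helper28.BA

namespace Pool.Agent.Helper82.BA

theorem int_cos5 (a b : ℝ) : ∫ θ in a..b, Real.cos θ ^ 5 =
    (Real.cos b ^ 4 * Real.sin b - Real.cos a ^ 4 * Real.sin a) / 5 +
      4 / 5 * (Real.sin b - Real.sin a - (Real.sin b ^ 3 - Real.sin a ^ 3) / 3) := by
  have h := integral_cos_pow (a := a) (b := b) (n := 3)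
  rw [integral_cos_pow_three] at h
  norm_num at h
  linarith

theorem int_abs5 : ∫ θ in (0 : ℝ)..(2 * Real.pi), |Real.cos θ| ^ 5 = 32 / 15 := by
  have h := split_odd (n := 5) (by decide)
  rw [h, int_cos5, int_cos5, int_cos5]
  have h1 : Real.sin (Real.pi + Real.pi / 2) = -1 := by
    rw [add_comm, Real.sin_add_pi, Real.sin_pi_div_two]
  have h2 : Real.cos (Real.pi + Real.pi / 2) = 0 := by
    rw [add_comm, Real.cos_add_pi, Real.cos_pi_div_two, neg_zero]
  rw [h1, h2, Real.sin_pi_div_two, Real.cos_pi_div_two, Real.sin_two_pi, Real.sin_zero]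
  norm_num

theorem cq5 : cq 5 = 16 / (15 * Real.pi) := by
  have hpi := Real.pi_pos
  unfold cq
  have h : ∫ θ in (0 : ℝ)..(2 * Real.pi), |Real.cos θ| ^ (5 : ℝ) = 32 / 15 := by
    rw [← int_abs5]
    refine intervalIntegral.integral_congr fun x _ => ?_
    exact_mod_cast Real.rpow_natCast (|Real.cos x|) 5
  rw [h]
  field_simp
  norm_num

theorem N5 : Pool.Agent.Helper28.BA.S_N5 := by
  have hpi := Real.pi_pos
  unfold S_N5
  have h1 : (400 / 497 : ℝ) ^ 5 ≤ cq 5 := by
    rw [cq5, le_div_iff₀ (by positivity)]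
    have h2 := Real.pi_lt_d2
    nlinarith
  have h3 : (400 / 497 : ℝ) ≤ cq 5 ^ (1 / 5 : ℝ) := by
    have h4 : (400 / 497 : ℝ) = ((400 / 497 : ℝ) ^ 5) ^ (1 / 5 : ℝ) := by
      rw [← Real.rpow_natCast, ← Real.rpow_mul (by norm_num)]
      norm_num
    rw [h4]
    exact Real.rpow_le_rpow (by positivity) h1 (by norm_num)
  rw [div_le_iff₀ (lt_of_lt_of_le (by norm_num) h3)]
  linarith

end Pool.Agent.Helper82.BA
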